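import Mathlib
import Pool.Agent.V11160.JU.G
set_option autoImplicit false

/-!
# Weak learning of functions closed under a coordinatewise operation

Let `f : {0,1}^n → {-1,1}` and suppose that `{f = 1}` or `{f = -1}` is closed under some Boolean
operation that is not affine, applied coordinate by coordinate.  Then some parity of at most two
variables, or its negation, agrees with `f` on at least a `1/2 + 1/(10 n)` fraction of the cube.
-/

namespace Pool.Agent.Results.MP_cba12a_lc.OperationClosedFunctions

open Finset

/-- `g` is affine: the sum modulo 2 of a constant and of some of its arguments. -/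
def Affine {k : ℕ} (g : (Fin k → Bool) → Bool) : Prop :=
  ∃ (c : Bool) (A : Finset (Fin k)), ∀ v,
    g v = xor c (decide (Odd (A.filter fun i => v i = true).card))

/-- `{f = b}` is closed under `g` applied coordinate by coordinate. -/
def Closed {n k : ℕ} (g : (Fin k → Bool) → Bool) (f : (Fin n → Bool) → Bool) (b : Bool) : Prop :=
  ∀ w : Fin k → Fin n → Bool, (∀ j, f (w j) = b) → f (fun l => g fun j => w j l) = b

theorem result {n k : ℕ} (f : (Fin n → Bool) → Bool) (b : Bool) (g : (Fin k → Bool) → Bool)
    (hg : ¬ Affine g) (hcl : Closed g f b) :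
    ∃ (S : Finset (Fin n)) (a : Bool), S.card ≤ 2 ∧
      (1 / 2 + 1 / (10 * (n : ℝ))) * 2 ^ n ≤
        ((univ.filter fun x : Fin n → Bool =>
          f x = xor a (decide (Odd (S.filter fun l => x l = true).card))).card : ℝ) := by
  classical
  set pm : Bool → ℝ := fun t => if t then 1 else -1 with hpm
  set par : Finset (Fin n) → (Fin n → Bool) → Bool := fun S x =>
    decide (Odd (S.filter fun l => x l = true).card) with hpar
  -- it is enough to bound a coefficient
  suffices key : ∃ S : Finset (Fin n), S.card ≤ 2 ∧
      1 / (5 * (n : ℝ)) ≤ |(∑ x, pm (f x) * pm (par S x)) / 2 ^ n| by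
    obtain ⟨S, hS, h1⟩ := key
    have hN : (0 : ℝ) < 2 ^ n := by positivity
    have hagree : ∀ a : Bool, ((univ.filter fun x : Fin n → Bool => f x = xor a (par S x)).card : ℝ)
        = (2 ^ n - pm a * ∑ x, pm (f x) * pm (par S x)) / 2 := by
      intro a
      rw [Finset.card_filter]
      push_cast
      rw [Finset.mul_sum, eq_div_iff (by norm_num), Finset.sum_mul]
      have h2 : (2 : ℝ) ^ n = ∑ _x : Fin n → Bool, (1 : ℝ) := by simp
      rw [h2, ← Finset.sum_sub_distrib]
      refine Finset.sum_congr rfl fun x _ => ?_
      simp only [hpm]
      cases f x <;> cases a <;> cases par S x <;> norm_num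
    have h2 : 1 / (5 * (n : ℝ)) * 2 ^ n ≤ |∑ x, pm (f x) * pm (par S x)| := by
      rw [abs_div, abs_of_pos hN, le_div_iff₀ hN] at h1
      exact h1
    have h3 : 1 / (10 * (n : ℝ)) = 1 / (5 * (n : ℝ)) / 2 := by
      rw [div_div]
      congr 1
      ring
    rcases le_total 0 (∑ x, pm (f x) * pm (par S x)) with h4 | h4
    · refine ⟨S, false, hS, ?_⟩
      have h5 := hagree false
      rw [abs_of_nonneg h4] at h2
      rw [h5, h3]
      simp only [hpm, Bool.false_eq_true, if_false]
      simp only [hpm] at h2
      linarith
    · refine ⟨S, true, hS, ?_⟩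
      have h5 := hagree true
      rw [abs_of_nonpos h4] at h2
      rw [h5, h3]
      simp only [hpm, if_true]
      simp only [hpm] at h2
      linarith
  rcases Nat.eq_zero_or_pos n with hn | hn
  · subst hn
    exact ⟨∅, by simp, by
      simp
      positivity⟩
  have hn1 : (1 : ℝ) ≤ n := by exact_mod_cast hn
  by_cases hne : (univ.filter fun x => f x = b).Nonempty
  · have hCl : V11160.CO.Closed g (univ.filter fun x => f x = b) := by
      intro w hw
      have h1 := hcl w fun i => by simpa using hw i
      simpa using h1
    obtain ⟨S, hS, h1⟩ := V11160.JU.low_coeff _ (V11160.CO.majClosed_of_closed hg hCl hne) hn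
    refine ⟨univ.filter fun i => S i = true, ?_, ?_⟩
    · rw [← V11160.JU.wt_eq]
      exact hS
    · have hchi : ∀ (T : Finset (Fin n)) (x : Fin n → Bool),
          pm (par T x) = - ∏ i ∈ T, (if x i then (-1 : ℝ) else 1) := by
        intro T x
        have h3 : ∏ i ∈ T, (if x i then (-1 : ℝ) else 1)
            = (-1) ^ (T.filter fun l => x l = true).card := by
          rw [Finset.prod_ite]
          simp
        rw [h3]
        simp only [hpm, hpar]
        rcases Nat.even_or_odd (T.filter fun l => x l = true).card with h4 | h4
        · rw [h4.neg_one_pow, if_neg]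
          simpa using h4
        · rw [h4.neg_one_pow, if_pos (by simpa using h4)]
          norm_num
      have h2 : ∑ x, pm (f x) * pm (par (univ.filter fun i => S i = true) x)
          = (if b then -1 else 1) * ∑ x, (if x ∈ (univ.filter fun x => f x = b) then (1 : ℝ)
            else -1) * V11160.JU.chi S x := by
        rw [Finset.mul_sum]
        refine Finset.sum_congr rfl fun x _ => ?_
        rw [hchi, Finset.prod_filter]
        have h5 : ∏ i, (if S i = true then (if x i then (-1 : ℝ) else 1) else 1)
            = V11160.JU.chi S x := by
          unfold V11160.JU.chi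
          refine Finset.prod_congr rfl fun i _ => ?_
          cases S i <;> cases x i <;> simp
        rw [h5]
        simp only [hpm, Finset.mem_filter, Finset.mem_univ, true_and]
        cases f x <;> cases b <;> simp
      rw [h2]
      unfold V11160.JU.hat at h1
      refine h1.trans (le_of_eq ?_)
      cases b
      · simp
      · simp only [if_true, neg_one_mul, neg_div, abs_neg]
  · rw [Finset.not_nonempty_iff_eq_empty, Finset.filter_eq_empty_iff] at hne
    refine ⟨∅, by simp, ?_⟩
    have h1 : ∀ x, pm (f x) * pm (par ∅ x) = if b then 1 else -1 := by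
      intro x
      have h2 := hne (Finset.mem_univ x)
      simp only [hpm, hpar]
      revert h2
      cases f x <;> cases b <;> simp
    rw [Finset.sum_congr rfl fun x _ => h1 x]
    have h3 : (1 : ℝ) / (5 * n) ≤ 1 := by
      rw [div_le_one (by positivity)]
      linarith
    refine h3.trans (le_of_eq ?_)
    cases b <;> simp

end Pool.Agent.Results.MP_cba12a_lc.OperationClosedFunctions
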