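import Pool.Agent.V11163.LR.Dnf

/-!
# Learning DNF formulas: read-once tensor networks, even with cancellations

A tree tensor network `Net K V A W` (`Pool/Agent/TH700/PA/Defs.lean`) has leaves that read one
symbol of the alphabet `A` each (with a vector in `K ^ W` for each symbol); an inner node combines
the vectors of its two children by an arbitrary bilinear map. It accepts the input if a linear
form of the vector of the root is not zero. The field `K` and the weights are arbitrary, so there
may be cancellations. The tree is arbitrary; if every right child is a leaf then this is a matrix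
product (a weighted one-pass algorithm with `log (card W)` bits of memory, for any order of the
samples). The bond dimension is `card W`.

The input is a sample: `N` points of the cube `Fin n → Bool` with labels; a leaf reads one point
together with its label. A learner whose hypotheses are from the class `H` also decides, after testing
its hypothesis on the sample, whether the labels are given by a DNF formula with `s` terms or have a
small agreement with every function of `H`. The theorem is about this decision problem for networks
which read every example at most once and have any number of nodes, and for an arbitrary finite class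
`H` of functions (for example all DNF formulas with `S` terms, where `S` may be much larger than `s`,
or all circuits of a given size), if the number `N` of samples is at least `O (log card H)` (plus
`O (s log n)`).

* (1) If they reject all samples for which every `h ∈ H` agrees with fewer than `15 / 16 N` labels and
  accept all samples of DNF formulas with `s` terms then the bond dimension is at least
  `(n / 8) ^ (s / 4 Γ) / Γ = n ^ Ω (s)`, for `s ≤ 2 ^ (n / 2)`.
* (2) If they reject only the samples for which every `h ∈ H` agrees with fewer than
  `(1 / 2 + 1 / g) N` labels then the bond dimension is at least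
  `binom (n, ⌊log s⌋) ^ (1 / (Γ g ^ 3)) / (Γ g)`, which is `n ^ Ω (log s)` for constant `g` (weak
  learning).

Up to the factor `2 ^ μ` this holds also for random networks which never accept a sample that has to be
rejected and accept every sample of a DNF formula with `s` terms with probability at least `2 ^ (- μ)`
(the deterministic case is the one point set, `μ = 0`). (3) At most `4 ^ (n s)` functions have DNF
formulas with `s` terms, and (4) the number of those which are consistent with the sample is computed by
a linear network over `ℚ` with bond dimension at most `4 ^ (n s)` and `2 N - 1` nodes which reads every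
example once.

**Proof.** The nodes of the tree give a partition of the sample into `t` parts (`t` is a constant in
(1) and `O (g ^ 3)` in (2)) of small rank with `O (N / t)` examples each. For each part take a random
function: in (1) a multiplexer with `⌊log s⌋` address bits and an arbitrary map of the addresses to the
other coordinates (a DNF formula with at most `s` terms; two random ones differ at a quarter of all
points, except with probability `n ^ (- Ω (s))`), in (2) a parity of `⌊log s⌋` coordinates. A function
`h` can have large agreement with few of them, so it has small agreement with the mixed sample, except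
with probability `exp (- Ω (N))`; by the union bound almost all mixtures of functions far from each
other are rejected. By the replacement lemma (`rand_density`, from the starting files) a dense set of
accepted samples has such a mixture which is accepted if the number of the functions is large in terms
of the bond dimension.
-/

set_option autoImplicit false

namespace Pool.Agent.Results.MP_cba12a_lc.TensorNetworks

open Pool.Agent.TH700.PA (Net)
open Pool.Agent.V11163.LR

/-- (1) The lower bound for agreement `15 / 16`; `agr h x` is the number of the examples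
`x i = (point, label)` whose label is given by `h`. (2) The lower bound for agreement `1 / 2 + 1 / g`.
(3) The number of DNF formulas. (4) The upper bound. -/
theorem result :
    (∃ Γ : ℕ, ∀ s n N : ℕ, 4 ≤ s → 2 * Nat.log 2 s ≤ n →
      ∀ H : Finset ((Fin n → Bool) → Bool), (2 * (H.card + 1) * n ^ s) ^ 2048 ≤ 2 ^ N →
      ∀ (μ : ℕ) (Ω : Type) [Fintype Ω] [Nonempty Ω] (K W : Ω → Type) [∀ ρ, Field (K ρ)]
        [∀ ρ, Fintype (W ρ)] (T : ∀ ρ, Net (K ρ) (Fin N) ((Fin n → Bool) × Bool) (W ρ))
        (a : ∀ ρ, W ρ → K ρ),
        (∀ ρ i, (T ρ).reads i ≤ 1) →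
        (∀ ρ x, (∀ h ∈ H, 16 * agr h x < 15 * N) → (T ρ).value (a ρ) x = 0) →
        (∀ f, IsDNF s f → ∀ x : Fin N → (Fin n → Bool) × Bool, (∀ i, (x i).2 = f (x i).1) →
          Nat.card Ω ≤ 2 ^ μ * Nat.card {ρ // (T ρ).value (a ρ) x ≠ 0}) →
        ∃ ρ, (n / 8) ^ (s / 4) ≤ (Γ * 2 ^ μ * Fintype.card (W ρ)) ^ Γ) ∧
    (∃ Γ : ℕ, ∀ g s n N : ℕ, 1 ≤ g → 2 ≤ s → Nat.log 2 s ≤ n →
      ∀ H : Finset ((Fin n → Bool) → Bool),
        (2 ^ g * (H.card + 1) * n.choose (Nat.log 2 s)) ^ (32 * g ^ 2) ≤ 2 ^ N →
      ∀ (μ : ℕ) (Ω : Type) [Fintype Ω] [Nonempty Ω] (K W : Ω → Type) [∀ ρ, Field (K ρ)]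
        [∀ ρ, Fintype (W ρ)] (T : ∀ ρ, Net (K ρ) (Fin N) ((Fin n → Bool) × Bool) (W ρ))
        (a : ∀ ρ, W ρ → K ρ),
        (∀ ρ i, (T ρ).reads i ≤ 1) →
        (∀ ρ x, (∀ h ∈ H, 2 * g * agr h x < (g + 2) * N) → (T ρ).value (a ρ) x = 0) →
        (∀ f, IsDNF s f → ∀ x : Fin N → (Fin n → Bool) × Bool, (∀ i, (x i).2 = f (x i).1) →
          Nat.card Ω ≤ 2 ^ μ * Nat.card {ρ // (T ρ).value (a ρ) x ≠ 0}) →
        ∃ ρ, n.choose (Nat.log 2 s) ≤ (Γ * g * 2 ^ μ * Fintype.card (W ρ)) ^ (Γ * g ^ 3)) ∧
    (∀ s n : ℕ, Nat.card {f : (Fin n → Bool) → Bool // IsDNF s f} ≤ 4 ^ (n * s)) ∧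
    (∀ s n N : ℕ, 1 ≤ N →
      ∃ (W : Type) (_ : Fintype W) (T : Net ℚ (Fin N) ((Fin n → Bool) × Bool) W) (a : W → ℚ),
        Fintype.card W ≤ 4 ^ (n * s) ∧ T.Linear ∧ (∀ i, T.reads i = 1) ∧ T.size = 2 * N - 1 ∧
        ∀ x, T.value a x = (Nat.card {f : (Fin n → Bool) → Bool //
          IsDNF s f ∧ ∀ i, (x i).2 = f (x i).1} : ℚ)) := by
  refine ⟨lower_mux, ?_, card_dnf, fun s n N hN => ?_⟩
  · obtain ⟨Γ, hΓ⟩ := lower_parity
    refine ⟨Γ, fun g s n N hg hs hsn H hN μ Ω _ _ K W _ _ T a h1 hno hyes => ?_⟩
    refine hΓ g (Nat.log 2 s) n N hg hsn H hN μ Ω K W T a h1 hno fun S hS x hx => ?_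
    refine hyes (par S) ?_ x hx
    have h2 : 1 ≤ Nat.log 2 s := Nat.log_pos (by norm_num) hs
    refine junta_dnf (k := Nat.log 2 s) (by omega) ?_ (Nat.pow_log_le_self 2 (by omega))
    have h3 := par_junta S
    rwa [hS] at h3
  · classical
    obtain ⟨T, a, h1, h2, h3, h4⟩ := upper_class (X := Fin n → Bool)
      (fun f => IsDNF s f) (N := N) hN
    refine ⟨_, inferInstance, T, a, ?_, h1, h2, h3, fun x => ?_⟩
    · rw [← Nat.card_eq_fintype_card]
      exact card_dnf s n
    · rw [h4]
      congr 1
      refine Nat.card_congr ⟨fun f => ⟨f.1.1, f.1.2, f.2⟩,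
        fun f => ⟨⟨f.1, f.2.1⟩, f.2.2⟩, fun _ => rfl, fun _ => rfl⟩

end Pool.Agent.Results.MP_cba12a_lc.TensorNetworks
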